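import Mathlib

/-!
# A hypersurface is not contained in another one
-/

set_option autoImplicit false

open Finset MvPolynomial Filter

namespace Pool.Agent.L5helper59.ZT

/-- L2 -/
theorem exists_zero_of_not_dvd {τ : Type} [Fintype τ] (q p : MvPolynomial τ ℂ) (hq : Irreducible q)
    (h : ¬ q ∣ p) : ∃ x : τ → ℂ, eval x q = 0 ∧ eval x p ≠ 0 := by
  by_contra hcon
  push Not at hcon
  have hprime : Prime q := hq.prime
  have hP : (Ideal.span {q}).IsPrime := (Ideal.span_singleton_prime hprime.ne_zero).2 hprime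
  have h1 : p ∈ vanishingIdeal ℂ (zeroLocus ℂ (Ideal.span {q})) := by
    rw [mem_vanishingIdeal_iff]
    intro x hx
    have h2 : aeval x q = 0 := hx q (Ideal.mem_span_singleton_self q)
    rw [MvPolynomial.aeval_eq_eval] at h2 ⊢
    exact hcon x h2
  rw [IsPrime.vanishingIdeal_zeroLocus] at h1
  exact h (Ideal.mem_span_singleton.1 h1)

end Pool.Agent.L5helper59.ZT
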