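import Pool.Agent.L5helper88.CP.Crit

/-!
# Critical points of multiples of a graph polynomial
-/

set_option autoImplicit false

open Finset MvPolynomial Filter

namespace Pool.Agent.L5helper59.ZT

open Pool.Agent.L5helper88.CP

theorem gr_dvd {σ : Type} [Fintype σ] [DecidableEq σ] (h : MvPolynomial σ ℂ)
    (g : MvPolynomial (Option σ) ℂ)
    (hg : aeval (fun o : Option σ => o.elim h (X : σ → MvPolynomial σ ℂ)) g = 0) : gr h ∣ g := by
  rw [← Ideal.mem_span_singleton, ← Ideal.Quotient.eq_zero_iff_mem]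
  let mk : MvPolynomial (Option σ) ℂ →ₐ[ℂ] MvPolynomial (Option σ) ℂ ⧸ Ideal.span {gr h} :=
    Ideal.Quotient.mkₐ ℂ _
  have h1 : mk = (mk.comp (rename some)).comp
      (aeval (fun o : Option σ => o.elim h (X : σ → MvPolynomial σ ℂ))) := by
    refine MvPolynomial.algHom_ext fun o => ?_
    rw [AlgHom.comp_apply, AlgHom.comp_apply, aeval_X]
    cases o with
    | none =>
      change Ideal.Quotient.mk _ _ = Ideal.Quotient.mk _ _
      rw [Ideal.Quotient.eq]
      exact Ideal.mem_span_singleton_self _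
    | some i =>
      change mk (X (some i)) = mk (rename some (X i))
      rw [rename_X]
  have h2 : mk g = 0 := by
    rw [h1, AlgHom.comp_apply, hg, map_zero]
  exact h2

theorem eval_elim {σ : Type} [Fintype σ] [DecidableEq σ] (h : MvPolynomial σ ℂ)
    (g : MvPolynomial (Option σ) ℂ) (p : σ → ℂ) :
    eval p (aeval (fun o : Option σ => o.elim h (X : σ → MvPolynomial σ ℂ)) g) =
      eval (fun o : Option σ => o.elim (eval p h) p) g := by
  have h1 : (aeval p : MvPolynomial σ ℂ →ₐ[ℂ] ℂ).comp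
      (aeval (fun o : Option σ => o.elim h (X : σ → MvPolynomial σ ℂ))) =
      aeval (fun o : Option σ => o.elim (eval p h) p) := by
    refine MvPolynomial.algHom_ext fun o => ?_
    rw [AlgHom.comp_apply, aeval_X, aeval_X]
    cases o with
    | none => rfl
    | some i =>
      change aeval p (X i) = p i
      rw [aeval_X]
  have h2 := DFunLike.congr_fun h1 g
  rw [AlgHom.comp_apply, MvPolynomial.aeval_eq_eval, MvPolynomial.aeval_eq_eval] at h2
  exact h2

theorem gr_not_unit {σ : Type} [Fintype σ] [DecidableEq σ] (h : MvPolynomial σ ℂ) :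
    ¬ IsUnit (gr h) := by
  intro hu
  have h1 := hu.map (eval (fun o : Option σ => o.elim (eval (0 : σ → ℂ) h) (0 : σ → ℂ)))
  have h2 : eval (fun o : Option σ => o.elim (eval (0 : σ → ℂ) h) (0 : σ → ℂ)) (gr h) = 0 := by
    unfold gr
    rw [map_sub, eval_X, eval_rename]
    exact sub_self _
  rw [h2] at h1
  exact not_isUnit_zero h1

/-- L6 (uses L4, L5) -/
theorem crit_mult_of
    (L4 : ∀ {σ : Type} [Fintype σ] [DecidableEq σ] (h : MvPolynomial σ ℂ) (c : σ → ℂ)
      (S : Finset (σ → ℂ)) (_ : Crit h c S) (q : MvPolynomial σ ℂ) (_ : q ≠ 0),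
      ∃ (c' : σ → ℂ) (S' : Finset (σ → ℂ)), S'.card = S.card ∧ Crit h c' S' ∧
        ∀ p ∈ S', eval p q ≠ 0)
    (L5 : ∀ {σ : Type} [Fintype σ] [DecidableEq σ] (h : MvPolynomial σ ℂ) (c : σ → ℂ)
      (S : Finset (σ → ℂ)) (_ : Crit h c S) (e : ℕ) (_ : 1 ≤ e)
      (g : MvPolynomial (Option σ) ℂ)
      (_ : ∀ p ∈ S, eval (fun o : Option σ => o.elim (eval p h) p) g ≠ 0),
      ∃ (c' : Option (Option σ) → ℂ) (S' : Finset (Option (Option σ) → ℂ)),
        S'.card = S.card ∧ Crit (X none * rename some (g * gr h ^ e)) c' S')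
    {σ : Type} [Fintype σ] [DecidableEq σ] (h : MvPolynomial σ ℂ) (c : σ → ℂ)
    (S : Finset (σ → ℂ)) (hS : Crit h c S) (g : MvPolynomial (Option σ) ℂ) (hg : g ≠ 0) :
    ∃ (c' : Option (Option σ) → ℂ) (S' : Finset (Option (Option σ) → ℂ)), S'.card = S.card ∧
      Crit (X none * rename some (g * gr h)) c' S' := by
  have hfin : FiniteMultiplicity (gr h) g := FiniteMultiplicity.of_not_isUnit (gr_not_unit h) hg
  obtain ⟨g1, hg1, hnd⟩ := hfin.exists_eq_pow_mul_and_not_dvd
  set q := aeval (fun o : Option σ => o.elim h (X : σ → MvPolynomial σ ℂ)) g1 with hq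
  have hq0 : q ≠ 0 := fun h0 => hnd (gr_dvd h g1 h0)
  obtain ⟨c1, S1, hc1, hS1, he1⟩ := L4 h c S hS q hq0
  obtain ⟨c2, S2, hc2, hS2⟩ := L5 h c1 S1 hS1 (multiplicity (gr h) g + 1) (by omega) g1
    (fun p hp => by
      rw [← eval_elim]
      exact he1 p hp)
  refine ⟨c2, S2, hc2.trans hc1, ?_⟩
  have h3 : g * gr h = g1 * gr h ^ (multiplicity (gr h) g + 1) := by
    conv_lhs => rw [hg1]
    ring
  rw [h3]
  exact hS2

end Pool.Agent.L5helper59.ZT
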